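import Pool.Agent.H41.HS.Graph

/-!
# The group theorem

A group of automorphisms of a graph on `ℕ` with supports in another copy of `ℕ` (coming from a
homomorphism onto the symmetric group of that copy), such that no component of the complement of
a finite set has an infinite orbit, forces an infinite set of vertices which are pairwise
inseparable by finite sets.
-/

set_option autoImplicit false

open Set

namespace Pool.Agent.H41.HS

/-- A group `K` of pairs `(h, σ)`: `h` an automorphism of the graph, `σ` the induced permutation,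
and supports of finite lists of vertices. -/
structure Sys (Adj : ℕ → ℕ → Prop) where
  K : Subgroup (Equiv.Perm ℕ × Equiv.Perm ℕ)
  sup : List ℕ → Finset ℕ
  adj : ∀ p ∈ K, ∀ x y, Adj x y → Adj (p.1 x) (p.1 y)
  eqv : ∀ p ∈ K, ∀ a : List ℕ, ∀ n, n ∈ sup a ↔ p.2 n ∈ sup (a.map p.1)
  mono : ∀ a b : List ℕ, a ⊆ b → sup a ⊆ sup b
  surj : ∀ (a : List ℕ) (σ : Equiv.Perm ℕ), (∀ n ∈ sup a, σ n = n) →
    ∃ h, (h, σ) ∈ K ∧ ∀ x ∈ a, h x = x
  nil : sup [] = ∅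
  unb : ∃ a, sup a ≠ ∅
  per : ∀ (a : List ℕ) (y : ℕ), y ∉ a → ∀ p ∈ K, (∀ x ∈ a, p.1 x = x) →
    ∃ k : ℕ, 0 < k ∧ ∃ h, (h, p.2 ^ k) ∈ K ∧ (∀ x ∈ a, h x = x) ∧ Cn Adj {x | x ∈ a} y (h y)

namespace Sys

variable {Adj : ℕ → ℕ → Prop} (Z : Sys Adj)

/-- good triples -/
structure Good (F : Finset ℕ) (S : List ℕ) (C : Set ℕ) : Prop where
  sub : Z.sup S ⊆ F
  fin : C.Finite
  ne : C.Nonempty
  con : Con Adj C
  act : ∀ y ∈ C, ¬ Z.sup (y :: S) ⊆ F

/-- the neighbours of `C` in `S` -/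
def nb (Adj : ℕ → ℕ → Prop) (S : List ℕ) (C : Set ℕ) : Set ℕ := {x | x ∈ S ∧ ∃ y ∈ C, Adj x y}

variable {Z}

lemma Good.notMem {F : Finset ℕ} {S : List ℕ} {C : Set ℕ} (h : Z.Good F S C) {y : ℕ} (hy : y ∈ C) :
    y ∉ S := fun hS => h.act y hy ((Z.mono _ _ (by
      intro z hz
      rcases List.mem_cons.mp hz with rfl | hz
      · exact hS
      · exact hz)).trans h.sub)

lemma Good.cn {F : Finset ℕ} {S : List ℕ} {C : Set ℕ} (h : Z.Good F S C) {x y : ℕ} (hx : x ∈ C)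
    (hy : y ∈ C) : Cn Adj {z | z ∈ S} x y :=
  h.con.cn (Set.disjoint_left.mpr fun _ hz hz' => h.notMem hz hz') hx hy

/-- for finite sets `A` and `B` there is a permutation fixing `A` pointwise all of whose powers
`τ ^ k`, `0 < k`, move `B \ A` off `B` -/
lemma exists_shift (A B : Finset ℕ) : ∃ τ : Equiv.Perm ℕ, (∀ n ∈ A, τ n = n) ∧
    ∀ k : ℕ, 0 < k → ∀ n ∈ B, n ∉ A → (τ ^ k) n ∉ B := by
  classical
  have hinf : Infinite {n : ℕ // n ∉ A} := by
    have : ((A : Set ℕ)ᶜ).Infinite := A.finite_toSet.infinite_compl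
    exact this.to_subtype
  obtain ⟨e⟩ : Nonempty ({n : ℕ // n ∉ A} ≃ ℤ) := ⟨(nonempty_denumerable _).some.eqv.trans
    (Denumerable.eqv ℤ).symm⟩
  -- bound of the positions of the elements of `B`
  obtain ⟨M, hM⟩ : ∃ M : ℤ, ∀ x : {n : ℕ // n ∉ A}, x.1 ∈ B → |e x| ≤ M := by
    have hfin : {x : {n : ℕ // n ∉ A} | x.1 ∈ B}.Finite :=
      B.finite_toSet.preimage Subtype.val_injective.injOn
    obtain ⟨M, hM⟩ := (hfin.image fun x => |e x|).bddAbove
    exact ⟨M, fun x hx => hM ⟨x, hx, rfl⟩⟩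
  have hpow : ∀ (k : ℕ) (x : {n : ℕ // n ∉ A}),
      (((e.trans (Equiv.addRight (2 * |M| + 1))).trans e.symm : Equiv.Perm _) ^ k) x =
        e.symm (e x + k * (2 * |M| + 1)) := by
    intro k
    induction k with
    | zero => intro x; simp
    | succ k ih =>
      intro x
      rw [pow_succ', Equiv.Perm.mul_apply, ih]
      simp only [Equiv.trans_apply, Equiv.apply_symm_apply, Equiv.coe_addRight]
      congr 1
      push_cast
      ring
  refine ⟨Equiv.Perm.ofSubtype ((e.trans (Equiv.addRight (2 * |M| + 1))).trans e.symm), ?_, ?_⟩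
  · intro n hn
    exact Equiv.Perm.ofSubtype_apply_of_not_mem _ (not_not.mpr hn)
  · intro k hk n hn hnA hB
    rw [← map_pow, Equiv.Perm.ofSubtype_apply_of_mem (p := fun n => n ∉ A) _ hnA, hpow] at hB
    have h1 := hM _ hB
    have h2 := hM ⟨n, hnA⟩ hn
    rw [Equiv.apply_symm_apply] at h1
    have h3 : (1 : ℤ) ≤ k := by exact_mod_cast hk
    have h4 : M ≤ |M| := le_abs_self M
    rw [abs_le] at h1 h2
    have h5 : (0 : ℤ) ≤ |M| := abs_nonneg M
    nlinarith [h1.2, h2.1]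

/-- Moving a good triple: inside its component the supports can be moved away from any finite
set. -/
lemma Good.move {F : Finset ℕ} {S : List ℕ} {C : Set ℕ} (h : Z.Good F S C) (F' : Finset ℕ)
    (hF : F ⊆ F') {a : ℕ} (ha : a ∈ C) :
    ∃ C' : Set ℕ, Z.Good F' S C' ∧ (∀ z ∈ C', Cn Adj {z | z ∈ S} a z) ∧
      nb Adj S C ⊆ nb Adj S C' := by
  classical
  -- all supports of points of `C` and `F'`
  obtain ⟨B, hB⟩ : ∃ B : Finset ℕ, F' ⊆ B ∧ ∀ y ∈ C, Z.sup (y :: S) ⊆ B := by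
    refine ⟨F' ∪ h.fin.toFinset.biUnion fun y => Z.sup (y :: S), Finset.subset_union_left, ?_⟩
    intro y hy
    exact (Finset.subset_biUnion_of_mem (fun y => Z.sup (y :: S))
      (h.fin.mem_toFinset.mpr hy)).trans Finset.subset_union_right
  obtain ⟨τ, hτ1, hτ2⟩ := exists_shift F B
  obtain ⟨h0, hK, hfix⟩ := Z.surj S τ fun n hn => hτ1 n (h.sub hn)
  obtain ⟨k, hk, g, hgK, hgfix, hg⟩ := Z.per S a (h.notMem ha) (h0, τ) hK hfix
  have hmap : S.map g = S := by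
    conv_rhs => rw [← List.map_id S]
    exact List.map_congr_left fun x hx => hgfix x hx
  have hcn : ∀ z ∈ C, Cn Adj {z | z ∈ S} a (g z) := by
    intro z hz
    refine hg.trans ?_
    exact Cn.map (f := g) (fun x y hxy _ _ => Z.adj _ hgK x y hxy)
      (fun x hx hx' => hx (by
        have := hgfix (g x) hx'
        exact (g.injective this) ▸ hx')) (h.cn ha hz)
  have hk1 : ∀ n ∈ F, (τ ^ k) n = n := by
    intro n hn
    exact Equiv.Perm.pow_apply_eq_self_of_apply_eq_self (hτ1 n hn) k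
  refine ⟨g '' C, ⟨h.sub.trans hF, h.fin.image g, h.ne.image g, ?_, ?_⟩, ?_, ?_⟩
  · rintro _ ⟨x, hx, rfl⟩ _ ⟨y, hy, rfl⟩
    refine Cn.map (f := g) (S := Cᶜ) (fun x y hxy _ _ => Z.adj _ hgK x y hxy) ?_ (h.con x hx y hy)
    intro x hx hx'
    exact hx' ⟨x, not_not.mp hx, rfl⟩
  · rintro _ ⟨y, hy, rfl⟩ hsub
    obtain ⟨n, hn1, hn2⟩ : ∃ n, n ∈ Z.sup (y :: S) ∧ n ∉ F := by
      by_contra hcon
      push Not at hcon
      exact h.act y hy hcon
    have h1 : (τ ^ k) n ∈ Z.sup ((y :: S).map g) := (Z.eqv _ hgK _ n).mp hn1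
    rw [List.map_cons, hmap] at h1
    exact hτ2 k hk n (hB.2 y hy hn1) hn2 (hB.1 (hsub h1))
  · rintro _ ⟨y, hy, rfl⟩
    exact hcn y hy
  · rintro x ⟨hx, y, hy, hxy⟩
    refine ⟨hx, g y, ⟨y, hy, rfl⟩, ?_⟩
    have := Z.adj _ hgK x y hxy
    rwa [show (g, τ ^ k).1 x = x from hgfix x hx] at this

/-- Translates of a good triple avoiding a finite set. -/
lemma Good.avoid {F : Finset ℕ} {S : List ℕ} {C : Set ℕ} (h : Z.Good F S C) (R : Set ℕ)
    (hR : R.Finite) : ∃ C' : Set ℕ, Con Adj C' ∧ Disjoint C' R ∧ nb Adj S C ⊆ nb Adj S C' := by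
  classical
  obtain ⟨a, ha⟩ := h.ne
  obtain ⟨C', h1, -, h3⟩ := h.move (F ∪ hR.toFinset.biUnion fun y => Z.sup (y :: S))
    Finset.subset_union_left ha
  refine ⟨C', h1.con, ?_, h3⟩
  rw [Set.disjoint_left]
  intro y hy hyR
  refine h1.act y hy ?_
  exact (Finset.subset_biUnion_of_mem (fun y => Z.sup (y :: S))
      (hR.mem_toFinset.mpr hyR)).trans Finset.subset_union_right

/-- adding a point to `S` -/
lemma Good.add {F : Finset ℕ} {S : List ℕ} {C : Set ℕ} (h : Z.Good F S C) (m : ℕ) :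
    ∃ (F' : Finset ℕ) (C' : Set ℕ), Z.Good F' (m :: S) C' ∧ nb Adj S C ⊆ nb Adj (m :: S) C' := by
  classical
  obtain ⟨a, ha⟩ := h.ne
  obtain ⟨C', h1, -, h3⟩ := h.move (F ∪ Z.sup (m :: S)) Finset.subset_union_left ha
  refine ⟨F ∪ Z.sup (m :: S), C', ⟨Finset.subset_union_right, h1.fin, h1.ne, h1.con, ?_⟩, ?_⟩
  · intro y hy hsub
    refine h1.act y hy ((Z.mono _ _ ?_).trans hsub)
    intro z hz
    rcases List.mem_cons.mp hz with rfl | hz
    · exact List.mem_cons_self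
    · exact List.mem_cons_of_mem _ (List.mem_cons_of_mem _ hz)
  · intro x hx
    obtain ⟨y, hy, hxy⟩ := (h3 hx).2
    exact ⟨List.mem_cons_of_mem _ hx.1, y, hy, hxy⟩

/-- the extension lemma -/
lemma Good.extend (hs : ∀ x y, Adj x y → Adj y x) {F : Finset ℕ} {S : List ℕ} {C : Set ℕ}
    (h : Z.Good F S C) :
    ∃ (F' : Finset ℕ) (S' : List ℕ) (C' : Set ℕ), Z.Good F' S' C' ∧ S ⊆ S' ∧
      nb Adj S C ⊆ nb Adj S' C' ∧ ∃ y ∈ nb Adj S' C', y ∉ S := by
  classical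
  obtain ⟨a, ha⟩ := h.ne
  obtain ⟨C', h1, h2, h3⟩ := h.move (F ∪ Z.sup (a :: S)) Finset.subset_union_left ha
  set F' := F ∪ Z.sup (a :: S) with hF'
  obtain ⟨c, hc⟩ := h1.ne
  have hsubs : ∀ x ∈ a :: S, Z.sup (x :: a :: S) ⊆ F' := by
    intro x hx
    refine (Z.mono _ (a :: S) ?_).trans Finset.subset_union_right
    intro z hz
    rcases List.mem_cons.mp hz with rfl | hz
    · exact hx
    · exact hz
  have hB : ∀ z ∈ C', ¬ Z.sup (z :: a :: S) ⊆ F' := by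
    intro z hz hsub
    refine h1.act z hz ((Z.mono _ _ ?_).trans hsub)
    intro x hx
    rcases List.mem_cons.mp hx with rfl | hx
    · exact List.mem_cons_self
    · exact List.mem_cons_of_mem _ (List.mem_cons_of_mem _ hx)
  obtain ⟨y, y', e1, e2, e3, P, e4, e5, e6, e7, e8⟩ := exists_last hs
    (B := fun z => ¬ Z.sup (z :: a :: S) ⊆ F') (h2 c hc)
    (not_not.mpr (hsubs a List.mem_cons_self)) (hB c hc)
  rw [not_not] at e2
  refine ⟨F', y :: a :: S, P ∪ C', ⟨e2, e4.union h1.fin, ⟨c, Or.inl e7⟩,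
    e5.union h1.con e7 hc, ?_⟩, ?_, ?_, y, ⟨List.mem_cons_self, y', Or.inl e6, e3⟩, ?_⟩
  · rintro z hz hsub
    have : ¬ Z.sup (z :: a :: S) ⊆ F' := by
      rcases hz with hz | hz
      · exact (e8 z hz).1
      · exact hB z hz
    refine this ((Z.mono _ _ ?_).trans hsub)
    intro x hx
    rcases List.mem_cons.mp hx with rfl | hx
    · exact List.mem_cons_self
    · exact List.mem_cons_of_mem _ (List.mem_cons_of_mem _ hx)
  · intro x hx
    exact List.mem_cons_of_mem _ (List.mem_cons_of_mem _ hx)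
  · intro x hx
    obtain ⟨z, hz, hxz⟩ := (h3 hx).2
    exact ⟨List.mem_cons_of_mem _ (List.mem_cons_of_mem _ hx.1), z, Or.inr hz, hxz⟩
  · exact e1.notMem (h.notMem ha)

/-- good triples exist -/
lemma exists_good : ∃ (F : Finset ℕ) (S : List ℕ) (C : Set ℕ), Z.Good F S C := by
  classical
  obtain ⟨a, ha⟩ := Z.unb
  induction a with
  | nil => exact absurd Z.nil ha
  | cons y S ih =>
    by_cases hS : Z.sup S = ∅
    · refine ⟨∅, S, {y}, ⟨by rw [hS], Set.finite_singleton _, ⟨y, rfl⟩, Con.singleton _, ?_⟩⟩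
      rintro _ rfl hsub
      exact ha (Finset.subset_empty.mp hsub)
    · exact ih hS

/-- **The group theorem.** -/
theorem gt (hs : ∀ x y, Adj x y → Adj y x) (Z : Sys Adj) :
    ∃ T : Set ℕ, T.Infinite ∧
      (∀ x ∈ T, ∀ y ∈ T, ∀ R : Set ℕ, R.Finite → x ∉ R → y ∉ R → Cn Adj R x y) ∧
      ∀ R : Set ℕ, R.Finite → ∀ x ∈ T, x ∉ R → ∃ (F : Finset ℕ) (S : List ℕ) (C : Set ℕ) (a : ℕ),
        Z.Good F S C ∧ a ∈ C ∧ (∀ z ∈ R, z ∈ S) ∧
        ∀ z, Cn Adj {z | z ∈ S} a z → Cn Adj R x z := by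
  classical
  -- the sequence of good triples
  obtain ⟨F0, S0, C0, h0⟩ := exists_good (Z := Z)
  have step : ∀ (n : ℕ) (s : {s : Finset ℕ × List ℕ × Set ℕ // Z.Good s.1 s.2.1 s.2.2}),
      ∃ s' : {s : Finset ℕ × List ℕ × Set ℕ // Z.Good s.1 s.2.1 s.2.2},
        s.1.2.1 ⊆ s'.1.2.1 ∧ n ∈ s'.1.2.1 ∧ nb Adj s.1.2.1 s.1.2.2 ⊆ nb Adj s'.1.2.1 s'.1.2.2 ∧
        ∃ y ∈ nb Adj s'.1.2.1 s'.1.2.2, y ∉ s.1.2.1 := by
    rintro n ⟨⟨F, S, C⟩, h⟩
    obtain ⟨F1, S1, C1, h1, hS1, hn1, y, hy, hyS⟩ := h.extend hs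
    obtain ⟨F2, C2, h2, hn2⟩ := h1.add n
    exact ⟨⟨⟨F2, n :: S1, C2⟩, h2⟩, fun z hz => List.mem_cons_of_mem _ (hS1 hz),
      List.mem_cons_self, hn1.trans hn2, y, hn2 hy, hyS⟩
  choose nx hx1 hx2 hx3 hx4 using step
  let s : ℕ → {s : Finset ℕ × List ℕ × Set ℕ // Z.Good s.1 s.2.1 s.2.2} :=
    fun n => Nat.rec ⟨⟨F0, S0, C0⟩, h0⟩ (fun n s => nx n s) n
  have hs1 : ∀ n, s (n + 1) = nx n (s n) := fun n => rfl
  have hS : ∀ n m, n ≤ m → (s n).1.2.1 ⊆ (s m).1.2.1 := by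
    intro n m hnm
    induction m, hnm using Nat.le_induction with
    | base => exact List.Subset.refl _
    | succ m _ ih =>
      intro z hz
      rw [hs1 m]
      exact hx1 m (s m) (ih hz)
  have hN : ∀ n m, n ≤ m → nb Adj (s n).1.2.1 (s n).1.2.2 ⊆ nb Adj (s m).1.2.1 (s m).1.2.2 := by
    intro n m hnm
    induction m, hnm using Nat.le_induction with
    | base => exact Set.Subset.refl _
    | succ m _ ih =>
      intro z hz
      rw [hs1 m]
      exact hx3 m (s m) (ih hz)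
  have hmem : ∀ n, n ∈ (s (n + 1)).1.2.1 := fun n => hs1 n ▸ hx2 n (s n)
  have hfin : ∀ R : Set ℕ, R.Finite → ∃ n, ∀ m, n ≤ m → ∀ z ∈ R, z ∈ (s m).1.2.1 := by
    intro R hR
    obtain ⟨B, hB⟩ := hR.bddAbove
    exact ⟨B + 1, fun m hm z hz => hS (z + 1) m (by have := hB hz; omega) (hmem z)⟩
  refine ⟨⋃ n, nb Adj (s n).1.2.1 (s n).1.2.2, ?_, ?_, ?_⟩
  · intro hfinT
    obtain ⟨n, hn⟩ := hfin _ hfinT
    obtain ⟨y, hy, hyS⟩ := hx4 n (s n)
    rw [← hs1] at hy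
    exact hyS (hn n le_rfl y (Set.mem_iUnion.mpr ⟨n + 1, hy⟩))
  · intro x hx y hy R hR hxR hyR
    obtain ⟨n, hn⟩ := Set.mem_iUnion.mp hx
    obtain ⟨m, hm⟩ := Set.mem_iUnion.mp hy
    obtain ⟨C', c1, c2, c3⟩ := (s (max n m)).2.avoid R hR
    obtain ⟨-, u, hu, hxu⟩ := c3 (hN n _ (le_max_left _ _) hn)
    obtain ⟨-, v, hv, hyv⟩ := c3 (hN m _ (le_max_right _ _) hm)
    have huR := Set.disjoint_left.mp c2 hu
    have hvR := Set.disjoint_left.mp c2 hv
    exact ((Cn.single hxu hxR huR).trans (c1.cn c2 hu hv)).trans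
      (Cn.single (hs _ _ hyv) hvR hyR)
  · intro R hR x hx hxR
    obtain ⟨n, hn⟩ := Set.mem_iUnion.mp hx
    obtain ⟨m, hm⟩ := hfin R hR
    obtain ⟨-, a, ha, hxa⟩ := hN n (max n m) (le_max_left _ _) hn
    have hRS := hm (max n m) (le_max_right _ _)
    refine ⟨_, _, _, a, (s (max n m)).2, ha, hRS, fun z hz => ?_⟩
    have haR : a ∉ R := fun h => (s (max n m)).2.notMem ha (hRS a h)
    exact (Cn.single hxa hxR haR).trans (hz.anti hRS)

end Sys

end Pool.Agent.H41.HS
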