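import Pool.Agent.H41.HS.GT

/-!
# Divisibility by the infinite symmetric group at a component
-/

set_option autoImplicit false

open Set

namespace Pool.Agent.H41.HS

/-- The set `A` of permutations contains a subgroup, closed for pointwise convergence, with a
continuous homomorphism onto `Equiv.Perm ℕ`. -/
def SDiv (A : Set (Equiv.Perm ℕ)) : Prop :=
  ∃ H : Subgroup (Equiv.Perm ℕ), (∀ h ∈ H, h ∈ A) ∧
    (∀ g : Equiv.Perm ℕ, (∀ E : Finset ℕ, ∃ h ∈ H, ∀ x ∈ E, h x = g x) → g ∈ H) ∧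
    ∃ φ : H →* Equiv.Perm ℕ, Function.Surjective φ ∧
      ∀ n : ℕ, ∃ E : Finset ℕ, ∀ h h' : H, (∀ x ∈ E, (h : Equiv.Perm ℕ) x = (h' : Equiv.Perm ℕ) x) →
        φ h n = φ h' n

/-- the closure of the first projection of a group of pairs -/
def clo (K2 : Subgroup (Equiv.Perm ℕ × Equiv.Perm ℕ)) : Subgroup (Equiv.Perm ℕ) where
  carrier := {g | ∀ E : Finset ℕ, ∃ p ∈ K2, ∀ x ∈ E, p.1 x = g x}
  one_mem' E := ⟨1, K2.one_mem, fun _ _ => rfl⟩
  mul_mem' := by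
    classical
    intro g g' hg hg' E
    obtain ⟨p', hp', h1⟩ := hg' E
    obtain ⟨p, hp, h2⟩ := hg (E.image g')
    refine ⟨p * p', K2.mul_mem hp hp', fun x hx => ?_⟩
    change p.1 (p'.1 x) = g (g' x)
    rw [h1 x hx, h2 _ (Finset.mem_image_of_mem _ hx)]
  inv_mem' := by
    classical
    intro g hg E
    obtain ⟨p, hp, h1⟩ := hg (E.image g.symm)
    refine ⟨p⁻¹, K2.inv_mem hp, fun x hx => ?_⟩
    change p.1.symm x = g.symm x
    rw [Equiv.symm_apply_eq, h1 _ (Finset.mem_image_of_mem _ hx), Equiv.apply_symm_apply]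

theorem sdiv_of_pairs (K2 : Subgroup (Equiv.Perm ℕ × Equiv.Perm ℕ)) (F : Finset ℕ)
    (A : Set (Equiv.Perm ℕ))
    (hA : ∀ g : Equiv.Perm ℕ, (∀ E : Finset ℕ, ∃ p ∈ K2, ∀ x ∈ E, p.1 x = g x) → g ∈ A)
    (h1 : ∀ p ∈ K2, ∀ n ∈ F, p.2 n = n)
    (h2 : ∀ σ : Equiv.Perm ℕ, (∀ n ∈ F, σ n = n) → ∃ h, (h, σ) ∈ K2)
    (h3 : ∀ n, ∃ E : Finset ℕ, ∀ p ∈ K2, ∀ q ∈ K2, (∀ z ∈ E, p.1 z = q.1 z) → p.2 n = q.2 n) :
    SDiv A := by
  classical
  choose Zn hZ using h3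
  have hval : ∀ (g : clo K2) (n : ℕ), ∃ v, ∀ p ∈ K2, (∀ z ∈ Zn n, p.1 z = (g : Equiv.Perm ℕ) z) →
      p.2 n = v := by
    intro g n
    obtain ⟨p, hp, h⟩ := g.2 (Zn n)
    exact ⟨p.2 n, fun q hq hq' => hZ n q hq p hp fun z hz => by rw [hq' z hz, h z hz]⟩
  choose val hv using hval
  have vmul : ∀ (g g' : clo K2) (n : ℕ), val (g * g') n = val g (val g' n) := by
    intro g g' n
    obtain ⟨p', hp', e1⟩ := g'.2 (Zn n)
    obtain ⟨p, hp, e2⟩ := g.2 ((Zn n).image (g' : Equiv.Perm ℕ) ∪ Zn (val g' n))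
    have e3 : (p * p').2 n = val (g * g') n := by
      refine hv _ n _ (K2.mul_mem hp hp') fun z hz => ?_
      change p.1 (p'.1 z) = (g : Equiv.Perm ℕ) ((g' : Equiv.Perm ℕ) z)
      rw [e1 z hz, e2 _ (Finset.mem_union_left _ (Finset.mem_image_of_mem _ hz))]
    rw [← e3]
    change p.2 (p'.2 n) = _
    rw [hv g' n p' hp' e1]
    exact hv g _ p hp fun z hz => e2 z (Finset.mem_union_right _ hz)
  have vone : ∀ n, val 1 n = n := fun n => (hv 1 n 1 K2.one_mem fun _ _ => rfl).symm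
  have vF : ∀ (g : clo K2), ∀ n ∈ F, val g n = n := by
    intro g n hn
    obtain ⟨p, hp, e1⟩ := g.2 (Zn n)
    rw [← hv g n p hp e1]
    exact h1 p hp n hn
  have vinv : ∀ (g : clo K2) (n : ℕ), val g⁻¹ (val g n) = n := by
    intro g n
    rw [← vmul, inv_mul_cancel, vone]
  have vinv' : ∀ (g : clo K2) (n : ℕ), val g (val g⁻¹ n) = n := by
    intro g n
    rw [← vmul, mul_inv_cancel, vone]
  have vnF : ∀ (g : clo K2) (n : ℕ), n ∉ F → val g n ∉ F := by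
    intro g n hn h
    have h4 := vF g⁻¹ _ h
    rw [vinv] at h4
    exact hn (h4 ▸ h)
  have hinf : Infinite {n : ℕ // n ∉ F} := by
    have : ((F : Set ℕ)ᶜ).Infinite := F.finite_toSet.infinite_compl
    exact this.to_subtype
  obtain ⟨e⟩ : Nonempty ({n : ℕ // n ∉ F} ≃ ℕ) := ⟨(nonempty_denumerable _).some.eqv⟩
  let φ : clo K2 →* Equiv.Perm ℕ := MonoidHom.mk' (fun g =>
    ⟨fun n => e ⟨val g (e.symm n).1, vnF g _ (e.symm n).2⟩,
      fun n => e ⟨val g⁻¹ (e.symm n).1, vnF g⁻¹ _ (e.symm n).2⟩,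
      fun n => by
        simp only [Equiv.symm_apply_apply, vinv]
        exact e.apply_symm_apply n,
      fun n => by
        simp only [Equiv.symm_apply_apply, vinv']
        exact e.apply_symm_apply n⟩) (by
      intro g g'
      ext n
      change e ⟨val (g * g') (e.symm n).1, _⟩ = e ⟨val g (e.symm (e ⟨_, _⟩)).1, _⟩
      simp only [Equiv.symm_apply_apply, vmul])
  have hφ : ∀ (g : clo K2) (n : ℕ), φ g n = e ⟨val g (e.symm n).1, vnF g _ (e.symm n).2⟩ :=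
    fun _ _ => rfl
  refine ⟨clo K2, hA, ?_, φ, ?_, ?_⟩
  · intro g hg E
    obtain ⟨h, hh, e1⟩ := hg E
    obtain ⟨p, hp, e2⟩ := hh E
    exact ⟨p, hp, fun x hx => by rw [e2 x hx, e1 x hx]⟩
  · intro τ
    let σ : Equiv.Perm ℕ := Equiv.Perm.ofSubtype ((e.trans τ).trans e.symm)
    have hσF : ∀ n ∈ F, σ n = n := fun n hn =>
      Equiv.Perm.ofSubtype_apply_of_not_mem _ (not_not.mpr hn)
    obtain ⟨h, hh⟩ := h2 σ hσF
    refine ⟨⟨h, fun E => ⟨_, hh, fun _ _ => rfl⟩⟩, ?_⟩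
    ext n
    have e1 : val ⟨h, fun E => ⟨_, hh, fun _ _ => rfl⟩⟩ (e.symm n).1 = σ (e.symm n).1 :=
      (hv _ _ _ hh fun _ _ => rfl).symm
    have e2 : σ (e.symm n).1 = (e.symm (τ n)).1 := by
      have := Equiv.Perm.ofSubtype_apply_of_mem (p := fun n => n ∉ F)
        ((e.trans τ).trans e.symm) (e.symm n).2
      rw [show σ = Equiv.Perm.ofSubtype ((e.trans τ).trans e.symm) from rfl, this]
      simp
    rw [hφ]
    have e3 : (⟨val ⟨h, fun E => ⟨_, hh, fun _ _ => rfl⟩⟩ (e.symm n).1, vnF _ _ (e.symm n).2⟩ :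
        {n : ℕ // n ∉ F}) = e.symm (τ n) := Subtype.ext (e1.trans e2)
    rw [e3, Equiv.apply_symm_apply]
  · intro n
    refine ⟨Zn (e.symm n).1, fun h h' hE => ?_⟩
    rw [hφ, hφ]
    congr 1
    apply Subtype.ext
    change val h _ = val h' _
    obtain ⟨p, hp, e1⟩ := h.2 (Zn (e.symm n).1)
    rw [← hv h _ p hp e1]
    exact hv h' _ p hp fun z hz => by rw [e1 z hz, hE z hz]

/-- two finite sets of points which meet in one given point only -/
lemma exists_two (F G : Finset ℕ) {g n : ℕ} (hg : g ∈ G) (hgF : g ∉ F) (hn : n ∉ F) :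
    ∃ σ1 σ2 : Equiv.Perm ℕ, (∀ m ∈ F, σ1 m = m) ∧ (∀ m ∈ F, σ2 m = m) ∧
      (∃ x ∈ G, σ1 x = n) ∧ (∃ x ∈ G, σ2 x = n) ∧
      ∀ m, m ∉ F → (∃ x ∈ G, σ1 x = m) → (∃ x ∈ G, σ2 x = m) → m = n := by
  classical
  obtain ⟨τ, hτ1, hτ2⟩ := Sys.exists_shift (insert g F) G
  have hsw : ∀ m ∈ F, Equiv.swap g n m = m := fun m hm =>
    Equiv.swap_apply_of_ne_of_ne (fun h => hgF (h ▸ hm)) (fun h => hn (h ▸ hm))
  refine ⟨Equiv.swap g n, Equiv.swap g n * τ, hsw, ?_, ⟨g, hg, Equiv.swap_apply_left g n⟩,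
    ⟨g, hg, ?_⟩, ?_⟩
  · intro m hm
    rw [Equiv.Perm.mul_apply, hτ1 m (Finset.mem_insert_of_mem hm), hsw m hm]
  · rw [Equiv.Perm.mul_apply, hτ1 g (Finset.mem_insert_self _ _), Equiv.swap_apply_left]
  · rintro m hm ⟨x, hx, rfl⟩ ⟨y, hy, hxy⟩
    rw [Equiv.Perm.mul_apply] at hxy
    have h1 : τ y = x := (Equiv.swap g n).injective hxy
    by_cases hyg : y ∈ insert g F
    · rw [hτ1 y hyg] at h1
      rcases Finset.mem_insert.mp hyg with rfl | hyF
      · rw [← h1, Equiv.swap_apply_left]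
      · subst h1
        rw [hsw y hyF] at hm
        exact absurd hyF hm
    · have := hτ2 1 one_pos y hy hyg
      rw [pow_one, h1] at this
      exact absurd hx this

namespace Sys

variable {Adj : ℕ → ℕ → Prop} {Z : Sys Adj}

/-- **Divisibility at a component.** -/
theorem div_of_good {F : Finset ℕ} {S : List ℕ} {C : Set ℕ}
    (h : Z.Good F S C) {a : ℕ} (ha : a ∈ C) (A : Set (Equiv.Perm ℕ))
    (hcl : ∀ g : Equiv.Perm ℕ, (∀ E : Finset ℕ, ∃ g' ∈ A, ∀ x ∈ E, g' x = g x) → g ∈ A)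
    (hloc : ∀ p ∈ Z.K, (∀ x ∈ S, p.1 x = x) → ∀ g : Equiv.Perm ℕ,
      (∀ x, Cn Adj {z | z ∈ S} a x → Cn Adj {z | z ∈ S} a (p.1 x)) →
      (∀ x, Cn Adj {z | z ∈ S} a x → g x = p.1 x) →
      (∀ x, ¬ Cn Adj {z | z ∈ S} a x → g x = x) → g ∈ A) :
    SDiv {g | g ∈ A ∧ ∀ x, ¬ Cn Adj {z | z ∈ S} a x → g x = x} := by
  classical
  set D : Set ℕ := {x | Cn Adj {z | z ∈ S} a x} with hD
  set F' := F ∪ Z.sup (a :: S) with hF'
  -- automorphisms fixing `a :: S` pointwise preserve `D`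
  have hpres : ∀ p ∈ Z.K, (∀ x ∈ a :: S, p.1 x = x) → ∀ x, x ∈ D → p.1 x ∈ D := by
    intro p hp hfix x hx
    have h1 : Cn Adj {z | z ∈ S} (p.1 a) (p.1 x) := by
      refine Cn.map (fun u v huv _ _ => Z.adj p hp u v huv) (fun u hu hu' => hu ?_) hx
      have := hfix (p.1 u) (List.mem_cons_of_mem _ hu')
      exact (p.1.injective this) ▸ hu'
    rwa [hfix a List.mem_cons_self] at h1
  have hfixinv : ∀ p : Equiv.Perm ℕ × Equiv.Perm ℕ, (∀ x ∈ a :: S, p.1 x = x) →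
      ∀ x ∈ a :: S, (p⁻¹).1 x = x := by
    intro p hfix x hx
    change p.1.symm x = x
    rw [Equiv.symm_apply_eq, hfix x hx]
  have hpres' : ∀ p ∈ Z.K, (∀ x ∈ a :: S, p.1 x = x) → ∀ x, x ∈ D ↔ p.1 x ∈ D := by
    intro p hp hfix x
    refine ⟨hpres p hp hfix x, fun hx => ?_⟩
    have := hpres p⁻¹ (Z.K.inv_mem hp) (hfixinv p hfix) _ hx
    change p.1.symm (p.1 x) ∈ D at this
    rwa [Equiv.symm_apply_apply] at this
  -- the group of pairs
  let K2 : Subgroup (Equiv.Perm ℕ × Equiv.Perm ℕ) :=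
    { carrier := {q | ∃ p ∈ Z.K, (∀ x ∈ a :: S, p.1 x = x) ∧ q.2 = p.2 ∧ (∀ n ∈ F', p.2 n = n) ∧
        (∀ x ∈ D, q.1 x = p.1 x) ∧ ∀ x, x ∉ D → q.1 x = x}
      one_mem' := ⟨1, Z.K.one_mem, fun _ _ => rfl, rfl, fun _ _ => rfl, fun _ _ => rfl,
        fun _ _ => rfl⟩
      mul_mem' := by
        rintro q q' ⟨p, a1, a2, a3, a4, a5, a6⟩ ⟨p', b1, b2, b3, b4, b5, b6⟩
        refine ⟨p * p', Z.K.mul_mem a1 b1, fun x hx => ?_, ?_, fun n hn => ?_, fun x hx => ?_,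
          fun x hx => ?_⟩
        · change p.1 (p'.1 x) = x
          rw [b2 x hx, a2 x hx]
        · change q.2 * q'.2 = p.2 * p'.2
          rw [a3, b3]
        · change p.2 (p'.2 n) = n
          rw [b4 n hn, a4 n hn]
        · change q.1 (q'.1 x) = p.1 (p'.1 x)
          rw [b5 x hx, a5 _ (hpres p' b1 b2 x hx)]
        · change q.1 (q'.1 x) = x
          rw [b6 x hx, a6 x hx]
      inv_mem' := by
        rintro q ⟨p, a1, a2, a3, a4, a5, a6⟩
        refine ⟨p⁻¹, Z.K.inv_mem a1, hfixinv p a2, ?_, fun n hn => ?_, fun x hx => ?_,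
          fun x hx => ?_⟩
        · change q.2⁻¹ = p.2⁻¹
          rw [a3]
        · change p.2.symm n = n
          rw [Equiv.symm_apply_eq, a4 n hn]
        · change q.1.symm x = p.1.symm x
          have hx' : p.1.symm x ∈ D := by
            rw [hpres' p a1 a2, Equiv.apply_symm_apply]
            exact hx
          rw [Equiv.symm_apply_eq, a5 _ hx', Equiv.apply_symm_apply]
        · change q.1.symm x = x
          rw [Equiv.symm_apply_eq, a6 x hx] }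
  -- a point of `D` with a large support
  obtain ⟨C', c1, c2, -⟩ := h.move F' Finset.subset_union_left ha
  obtain ⟨y, hy⟩ := c1.ne
  obtain ⟨g0, hg0, hg0F⟩ : ∃ g0, g0 ∈ Z.sup (y :: S) ∧ g0 ∉ F' := by
    by_contra hcon
    push Not at hcon
    exact c1.act y hy hcon
  have hyD : y ∈ D := c2 y hy
  have hmapS : ∀ g : Equiv.Perm ℕ, (∀ x ∈ a :: S, g x = x) → S.map g = S := by
    intro g hg
    conv_rhs => rw [← List.map_id S]
    exact List.map_congr_left fun x hx => hg x (List.mem_cons_of_mem _ hx)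
  refine sdiv_of_pairs K2 F' _ ?_ ?_ ?_ ?_
  · -- closedness
    intro g hg
    refine ⟨hcl g fun E => ?_, fun x hx => ?_⟩
    · obtain ⟨q, ⟨p, a1, a2, a3, a4, a5, a6⟩, hq⟩ := hg E
      exact ⟨q.1, hloc p a1 (fun x hx => a2 x (List.mem_cons_of_mem _ hx)) q.1
        (hpres p a1 a2) a5 a6, hq⟩
    · obtain ⟨q, ⟨p, a1, a2, a3, a4, a5, a6⟩, hq⟩ := hg {x}
      rw [← hq x (Finset.mem_singleton_self x)]
      exact a6 x hx
  · rintro q ⟨p, a1, a2, a3, a4, a5, a6⟩ n hn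
    rw [a3]
    exact a4 n hn
  · intro σ hσ
    obtain ⟨g, hgK, hgfix⟩ := Z.surj (a :: S) σ fun n hn => hσ n (Finset.mem_union_right _ hn)
    have hiff := hpres' (g, σ) hgK hgfix
    refine ⟨Equiv.Perm.ofSubtype (Equiv.Perm.subtypePerm g fun x => (hiff x).symm), (g, σ), hgK,
      hgfix, rfl, hσ, fun x hx => ?_, fun x hx => ?_⟩
    · have := Equiv.Perm.ofSubtype_apply_of_mem (p := fun x => x ∈ D)
        (Equiv.Perm.subtypePerm g fun x => (hiff x).symm) hx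
      rw [this]
      rfl
    · exact Equiv.Perm.ofSubtype_apply_of_not_mem _ hx
  · intro n
    by_cases hn : n ∈ F'
    · refine ⟨∅, ?_⟩
      rintro q ⟨p, a1, a2, a3, a4, a5, a6⟩ q' ⟨p', b1, b2, b3, b4, b5, b6⟩ -
      rw [a3, b3, a4 n hn, b4 n hn]
    · obtain ⟨σ1, σ2, s1, s2, s3, s4, s5⟩ := exists_two F' (Z.sup (y :: S)) hg0 hg0F hn
      obtain ⟨g1, k1, f1⟩ := Z.surj (a :: S) σ1 fun n hn => s1 n (Finset.mem_union_right _ hn)
      obtain ⟨g2, k2, f2⟩ := Z.surj (a :: S) σ2 fun n hn => s2 n (Finset.mem_union_right _ hn)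
      have d1 : g1 y ∈ D := hpres _ k1 f1 y hyD
      have d2 : g2 y ∈ D := hpres _ k2 f2 y hyD
      -- supports of translates
      have key : ∀ (gi σi : Equiv.Perm ℕ), (gi, σi) ∈ Z.K → (∀ x ∈ a :: S, gi x = x) →
          ∀ p ∈ Z.K, (∀ x ∈ a :: S, p.1 x = x) → ∀ m,
          m ∈ Z.sup (p.1 (gi y) :: S) ↔ ∃ x ∈ Z.sup (y :: S), p.2 (σi x) = m := by
        intro gi σi ki fi p hp hfix m
        have e1 := Z.eqv (p * (gi, σi)) (Z.K.mul_mem hp ki) (y :: S)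
        have e2 : (y :: S).map (p * (gi, σi)).1 = p.1 (gi y) :: S := by
          rw [List.map_cons]
          congr 1
          exact hmapS _ fun x hx => by
            change p.1 (gi x) = x
            rw [fi x hx, hfix x hx]
        rw [e2] at e1
        constructor
        · intro hm
          refine ⟨σi.symm (p.2.symm m), (e1 _).mpr ?_, by simp⟩
          change p.2 (σi (σi.symm (p.2.symm m))) ∈ _
          simpa using hm
        · rintro ⟨x, hx, rfl⟩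
          exact (e1 x).mp hx
      refine ⟨{g1 y, g2 y}, ?_⟩
      rintro q ⟨p, a1, a2, a3, a4, a5, a6⟩ q' ⟨p', b1, b2, b3, b4, b5, b6⟩ hqq
      have e1 : p.1 (g1 y) = p'.1 (g1 y) := by
        rw [← a5 _ d1, ← b5 _ d1]
        exact hqq _ (by simp)
      have e2 : p.1 (g2 y) = p'.1 (g2 y) := by
        rw [← a5 _ d2, ← b5 _ d2]
        exact hqq _ (by simp)
      rw [a3, b3]
      -- `p'.2⁻¹ (p.2 n)` is in both translates
      have hm1 : ∃ x ∈ Z.sup (y :: S), σ1 x = p'.2.symm (p.2 n) := by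
        have : p.2 n ∈ Z.sup (p.1 (g1 y) :: S) := by
          rw [key g1 σ1 k1 f1 p a1 a2]
          obtain ⟨x, hx, hxn⟩ := s3
          exact ⟨x, hx, by rw [hxn]⟩
        rw [e1, key g1 σ1 k1 f1 p' b1 b2] at this
        obtain ⟨x, hx, hxn⟩ := this
        exact ⟨x, hx, by rw [← hxn, Equiv.symm_apply_apply]⟩
      have hm2 : ∃ x ∈ Z.sup (y :: S), σ2 x = p'.2.symm (p.2 n) := by
        have : p.2 n ∈ Z.sup (p.1 (g2 y) :: S) := by
          rw [key g2 σ2 k2 f2 p a1 a2]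
          obtain ⟨x, hx, hxn⟩ := s4
          exact ⟨x, hx, by rw [hxn]⟩
        rw [e2, key g2 σ2 k2 f2 p' b1 b2] at this
        obtain ⟨x, hx, hxn⟩ := this
        exact ⟨x, hx, by rw [← hxn, Equiv.symm_apply_apply]⟩
      have hmF : p'.2.symm (p.2 n) ∉ F' := by
        intro hm
        have e3 : p'.2 (p'.2.symm (p.2 n)) = p'.2.symm (p.2 n) := b4 _ hm
        rw [Equiv.apply_symm_apply] at e3
        rw [← e3] at hm
        have e4 : p.2 (p.2 n) = p.2 n := a4 _ hm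
        exact hn ((p.2.injective e4) ▸ hm)
      have := s5 _ hmF hm1 hm2
      rw [Equiv.symm_apply_eq] at this
      exact this

end Sys

end Pool.Agent.H41.HS
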