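import Pool.Agent.H75.Isom.Auto
import Pool.Agent.H71.DST2
import Pool.Agent.H41.HS.Div

/-!
# Supports for continuous homomorphisms onto the infinite symmetric group
-/

set_option autoImplicit false

open Set Topology Filter MeasureTheory

namespace Pool.Agent.H41.HS

open Pool.Agent.H71 Pool.Agent.H71.DST Pool.Agent.H75.Isom

attribute [local instance] permTop polishSpace_perm isTopologicalGroup_perm

/-- a finite partial injection extends to a permutation -/
lemma exists_ext {B : Set ℕ} (hB : B.Finite) {f : ℕ → ℕ} (hf : InjOn f B) :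
    ∃ π : Equiv.Perm ℕ, ∀ x ∈ B, π x = f x := by
  have h1 : (Bᶜ : Set ℕ).Infinite := hB.infinite_compl
  have h2 : ((f '' B)ᶜ : Set ℕ).Infinite := (hB.image f).infinite_compl
  have := h1.to_subtype
  have := h2.to_subtype
  obtain ⟨e'⟩ : Nonempty ((Bᶜ : Set ℕ) ≃ ((f '' B)ᶜ : Set ℕ)) := nonempty_equiv_of_countable
  obtain ⟨h, hh⟩ := exists_perm (Equiv.Set.imageOfInjOn f B hf) e'
  exact ⟨h, fun x hx => hh ⟨x, hx⟩⟩

/-- The pointwise stabilisers of two finite sets generate that of the intersection. -/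
lemma mem_of_inter {T : Subgroup (Equiv.Perm ℕ)} {E E' : Finset ℕ}
    (hE : ∀ σ : Equiv.Perm ℕ, (∀ n ∈ E, σ n = n) → σ ∈ T)
    (hE' : ∀ σ : Equiv.Perm ℕ, (∀ n ∈ E', σ n = n) → σ ∈ T) (σ : Equiv.Perm ℕ)
    (hσ : ∀ n, n ∈ E → n ∈ E' → σ n = n) : σ ∈ T := by
  classical
  obtain ⟨τ, hτ1, hτ2⟩ := Sys.exists_shift E' (E ∪ E' ∪ E.image σ)
  -- `E₁ = τ E`
  have hE1 : ∀ ρ : Equiv.Perm ℕ, (∀ n ∈ E, ρ (τ n) = τ n) → ρ ∈ T := by
    intro ρ hρ
    have h1 : τ⁻¹ * ρ * τ ∈ T := by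
      refine hE _ fun n hn => ?_
      change τ.symm (ρ (τ n)) = n
      rw [hρ n hn, Equiv.symm_apply_apply]
    have hτT : τ ∈ T := hE' τ hτ1
    have h2 := T.mul_mem (T.mul_mem hτT h1) (T.inv_mem hτT)
    have h3 : τ * (τ⁻¹ * ρ * τ) * τ⁻¹ = ρ := by group
    rwa [h3] at h2
  have hoff : ∀ n ∈ E, n ∉ E' → τ n ∉ E ∧ τ n ∉ E' ∧ ∀ m ∈ E, τ n ≠ σ m := by
    intro n hn hn'
    have h1 := hτ2 1 one_pos n (by simp [hn]) hn'
    rw [pow_one] at h1
    simp only [Finset.mem_union, Finset.mem_image, not_or] at h1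
    exact ⟨h1.1.1, h1.1.2, fun m hm h => h1.2 ⟨m, hm, h.symm⟩⟩
  -- the partial injection: `σ` on `E`, the identity on `τ E`
  let f : ℕ → ℕ := fun x => if x ∈ E then σ x else x
  have hf : InjOn f (E ∪ (E.image τ : Finset ℕ) : Set ℕ) := by
    intro x hx y hy hxy
    simp only [f] at hxy
    have aux : ∀ x y, x ∈ E → y ∉ E → (∃ m ∈ E, τ m = y) → σ x = y → False := by
      rintro x y hx hy ⟨m, hm, rfl⟩ h
      by_cases hm' : m ∈ E'
      · rw [hτ1 m hm'] at hy
        exact hy hm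
      · exact (hoff m hm hm').2.2 x hx h.symm
    have hx' : x ∈ E ∨ ∃ m ∈ E, τ m = x := hx.imp_right fun h => Finset.mem_image.mp h
    have hy' : y ∈ E ∨ ∃ m ∈ E, τ m = y := hy.imp_right fun h => Finset.mem_image.mp h
    by_cases h1 : x ∈ E <;> by_cases h2 : y ∈ E
    · rw [if_pos h1, if_pos h2] at hxy
      exact σ.injective hxy
    · rw [if_pos h1, if_neg h2] at hxy
      exact (aux x y h1 h2 (hy'.resolve_left h2) hxy).elim
    · rw [if_neg h1, if_pos h2] at hxy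
      exact (aux y x h2 h1 (hx'.resolve_left h1) hxy.symm).elim
    · rwa [if_neg h1, if_neg h2] at hxy
  obtain ⟨α, hα⟩ := exists_ext (B := (E ∪ (E.image τ : Finset ℕ) : Set ℕ))
    ((E.finite_toSet).union (Finset.finite_toSet _)) hf
  have hα1 : ∀ n ∈ E, α n = σ n := by
    intro n hn
    rw [hα n (Or.inl hn)]
    simp only [f, if_pos hn]
  have hα2 : ∀ n ∈ E, α (τ n) = τ n := by
    intro n hn
    rw [hα (τ n) (Or.inr (Finset.mem_image_of_mem τ hn))]
    by_cases hn' : n ∈ E'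
    · rw [hτ1 n hn']
      simp only [f, if_pos hn]
      exact hσ n hn hn'
    · simp only [f, if_neg (hoff n hn hn').1]
  have h4 : α⁻¹ * σ ∈ T := by
    refine hE _ fun n hn => ?_
    change α.symm (σ n) = n
    rw [Equiv.symm_apply_eq, hα1 n hn]
  have h5 := T.mul_mem (hE1 α hα2) h4
  rwa [mul_inv_cancel_left] at h5

/-- The image of the stabiliser of a point is open. -/
lemma exists_open (H : Subgroup (Equiv.Perm ℕ)) (hH : IsClosed (H : Set (Equiv.Perm ℕ)))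
    (φ : H →* Equiv.Perm ℕ) (hφ : Function.Surjective φ)
    (hc : ∀ n m : ℕ, IsOpen {h : H | φ h n = m}) (i : ℕ) :
    ∃ N : ℕ, ∀ σ : Equiv.Perm ℕ, (∀ k < N, σ k = k) → ∃ θ : H, (θ : Equiv.Perm ℕ) i = i ∧ φ θ = σ := by
  have : PolishSpace H := hH.polishSpace
  have hcont : Continuous φ := by
    refine continuous_to_perm (fun n => ?_) (fun n => ?_)
    · rw [continuous_discrete_rng]
      exact fun m => hc n m
    · rw [continuous_discrete_rng]
      intro m
      have : (fun x : H => (φ x).symm n) ⁻¹' {m} = {h : H | φ h m = n} := by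
        ext x
        simp only [mem_preimage, mem_singleton_iff, mem_ofPred_eq]
        rw [Equiv.symm_apply_eq, eq_comm]
      rw [this]
      exact hc m n
  let V : ℕ → Set H := fun j => {θ : H | (θ : Equiv.Perm ℕ) i = j}
  have hVc : ∀ j, IsClosed (V j) := fun j =>
    (isClosed_discrete {j}).preimage ((continuous_perm_apply i).comp continuous_subtype_val)
  have hT : ∀ j, BaireMeasurableSet (φ '' V j) := fun j =>
    analyticSet_baireMeasurableSet (((hVc j).analyticSet).image_of_continuous hcont)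
  have hne : ¬ IsMeagre (φ '' V i) := by
    intro hm
    have hall : ∀ j, IsMeagre (φ '' V j) := by
      intro j
      by_cases hj : (V j).Nonempty
      · obtain ⟨θ, hθ⟩ := hj
        have h1 : φ '' V j ⊆ (fun g : Equiv.Perm ℕ => (φ θ)⁻¹ * g) ⁻¹' (φ '' V i) := by
          rintro _ ⟨η, hη, rfl⟩
          refine ⟨θ⁻¹ * η, ?_, ?_⟩
          · change (θ : Equiv.Perm ℕ).symm ((η : Equiv.Perm ℕ) i) = i
            rw [Equiv.symm_apply_eq]
            exact (show (η : Equiv.Perm ℕ) i = j from hη).trans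
              (show (θ : Equiv.Perm ℕ) i = j from hθ).symm
          · rw [map_mul, map_inv]
        exact (hm.preimage_of_isOpenMap (continuous_const_mul _) (isOpenMap_mul_left _)).mono h1
      · rw [not_nonempty_iff_eq_empty] at hj
        rw [hj, image_empty]
        exact IsMeagre.empty
    have hU : (univ : Set (Equiv.Perm ℕ)) ⊆ ⋃ j, φ '' V j := by
      intro σ _
      obtain ⟨θ, rfl⟩ := hφ σ
      exact mem_iUnion.mpr ⟨(θ : Equiv.Perm ℕ) i, θ, rfl, rfl⟩
    have h2 : IsMeagre (univ : Set (Equiv.Perm ℕ)) := (isMeagre_iUnion hall).mono hU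
    have h3 : (∅ : Set (Equiv.Perm ℕ)) ∈ residual (Equiv.Perm ℕ) := by
      have := h2
      rw [IsMeagre, compl_univ] at this
      exact this
    have h4 := dense_of_mem_residual h3
    exact (Set.not_nonempty_empty (h4.nonempty))
  have hP := pettis (hT i) hne
  obtain ⟨N, hN⟩ := mem_nhds_one_iff hP
  refine ⟨N, fun σ hσ => ?_⟩
  obtain ⟨_, ⟨θ, hθ, rfl⟩, ⟨η, hη, hη'⟩⟩ := hN σ hσ
  refine ⟨θ⁻¹ * η, ?_, ?_⟩
  · change (θ : Equiv.Perm ℕ).symm ((η : Equiv.Perm ℕ) i) = i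
    rw [Equiv.symm_apply_eq]
    exact (show (η : Equiv.Perm ℕ) i = i from hη).trans
      (show (θ : Equiv.Perm ℕ) i = i from hθ).symm
  · rw [map_mul, map_inv, hη', inv_mul_cancel_left]

/-- **Supports.** -/
theorem exists_supp (H : Subgroup (Equiv.Perm ℕ)) (hH : IsClosed (H : Set (Equiv.Perm ℕ)))
    (φ : H →* Equiv.Perm ℕ) (hφ : Function.Surjective φ)
    (hc : ∀ n m : ℕ, IsOpen {h : H | φ h n = m}) :
    ∃ supp : ℕ → Finset ℕ,
      (∀ (i : ℕ) (σ : Equiv.Perm ℕ), (∀ n ∈ supp i, σ n = n) →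
        ∃ θ : H, (θ : Equiv.Perm ℕ) i = i ∧ φ θ = σ) ∧
      ∀ (i : ℕ) (E : Finset ℕ), (∀ σ : Equiv.Perm ℕ, (∀ n ∈ E, σ n = n) →
        ∃ θ : H, (θ : Equiv.Perm ℕ) i = i ∧ φ θ = σ) → supp i ⊆ E := by
  classical
  have key : ∀ i : ℕ, ∃ E : Finset ℕ, (∀ σ : Equiv.Perm ℕ, (∀ n ∈ E, σ n = n) →
        ∃ θ : H, (θ : Equiv.Perm ℕ) i = i ∧ φ θ = σ) ∧
      ∀ E' : Finset ℕ, (∀ σ : Equiv.Perm ℕ, (∀ n ∈ E', σ n = n) →
        ∃ θ : H, (θ : Equiv.Perm ℕ) i = i ∧ φ θ = σ) → E ⊆ E' := by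
    intro i
    let P : Finset ℕ → Prop := fun E => ∀ σ : Equiv.Perm ℕ, (∀ n ∈ E, σ n = n) →
        ∃ θ : H, (θ : Equiv.Perm ℕ) i = i ∧ φ θ = σ
    have hex : ∃ k, ∃ E, P E ∧ E.card = k := by
      obtain ⟨N, hN⟩ := exists_open H hH φ hφ hc i
      exact ⟨_, Finset.range N, fun σ hσ => hN σ fun k hk => hσ k (Finset.mem_range.mpr hk), rfl⟩
    obtain ⟨E, hE, hcard⟩ := Nat.find_spec hex
    refine ⟨E, hE, fun E' hE' => ?_⟩
    let T : Subgroup (Equiv.Perm ℕ) :=
      { carrier := {σ | ∃ θ : H, (θ : Equiv.Perm ℕ) i = i ∧ φ θ = σ}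
        one_mem' := ⟨1, rfl, map_one φ⟩
        mul_mem' := by
          rintro _ _ ⟨θ, h1, rfl⟩ ⟨η, h2, rfl⟩
          refine ⟨θ * η, ?_, map_mul φ θ η⟩
          change (θ : Equiv.Perm ℕ) ((η : Equiv.Perm ℕ) i) = i
          rw [h2, h1]
        inv_mem' := by
          rintro _ ⟨θ, h1, rfl⟩
          refine ⟨θ⁻¹, ?_, map_inv φ θ⟩
          change (θ : Equiv.Perm ℕ).symm i = i
          rw [Equiv.symm_apply_eq, h1] }
    have hI : P (E ∩ E') := by
      intro σ hσ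
      exact mem_of_inter (T := T) (E := E) (E' := E') hE hE' σ fun n h1 h2 =>
        hσ n (Finset.mem_inter.mpr ⟨h1, h2⟩)
    have h1 : Nat.find hex ≤ (E ∩ E').card := Nat.find_min' hex ⟨_, hI, rfl⟩
    rw [← hcard] at h1
    have h2 : E ∩ E' = E := Finset.eq_of_subset_of_card_le Finset.inter_subset_left h1
    rw [← h2]
    exact Finset.inter_subset_right
  choose supp h1 h2 using key
  exact ⟨supp, h1, h2⟩

end Pool.Agent.H41.HS
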