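import Pool.Agent.H71.VK.HSK
import Pool.Agent.H41.HS.Supp

/-!
# The conclusion of the theorem for one structure
-/

set_option autoImplicit false

open Set Pool.Agent.TK Pool.Agent.H71.VK

namespace Pool.Agent.H41.HS

variable {C : Type} {c0 : C}

/-- There is an infinite set `W` of vertices, pairwise not separated by finite sets, such that for
every finite set `R` the group of automorphisms which are the identity outside the component of
`M - R` containing `W \ R` is divisible by the infinite symmetric group. -/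
def HSP (M : St C) : Prop :=
  ∃ W : Set ℕ, W.Infinite ∧
    (∀ a ∈ W, ∀ b ∈ W, ∀ R : Set ℕ, R.Finite → a ∉ R → b ∉ R → Conn M R a b) ∧
    ∀ R : Set ℕ, R.Finite → ∀ x ∈ W, x ∉ R →
      SDiv {g : Equiv.Perm ℕ | IsoH g M M ∧ ∀ z, ¬ Conn M R x z → g z = z}

lemma SDiv.mono {A B : Set (Equiv.Perm ℕ)} (h : SDiv A) (hAB : A ⊆ B) : SDiv B := by
  obtain ⟨H, h1, h2⟩ := h
  exact ⟨H, fun g hg => hAB (h1 g hg), h2⟩

lemma cn_to_conn {M : St C} {A : Set ℕ} {u v : ℕ} (hu : u ∉ A)
    (h : Cn (fun x y => M.1 x y = true) A u v) : Conn M A u v := by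
  refine ⟨hu, ?_⟩
  induction h with
  | refl => exact Relation.ReflTransGen.refl
  | tail _ hs ih => exact ih.tail ⟨hs.1, hs.2.2⟩

lemma closed_isoH (M : St C) (g : Equiv.Perm ℕ)
    (h : ∀ E : Finset ℕ, ∃ g' ∈ {g : Equiv.Perm ℕ | IsoH g M M}, ∀ x ∈ E, g' x = g x) :
    g ∈ {g : Equiv.Perm ℕ | IsoH g M M} := by
  classical
  refine ⟨fun u v => ?_, fun l => ?_⟩
  · obtain ⟨g', hg', h'⟩ := h {u, v}
    rw [hg'.1, h' u (by simp), h' v (by simp)]
  · obtain ⟨g', hg', h'⟩ := h l.toFinset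
    rw [hg'.2 l]
    exact congrArg M.2 (List.map_congr_left fun x hx => h' x (by simpa using hx))

/-- restricting an automorphism to a component -/
lemma isoH_local {M : St C} (hV : Valid c0 M) {p : Equiv.Perm ℕ} (hp : IsoH p M M) {S : List ℕ}
    {a : ℕ} (ha : a ∉ S) (hS : ∀ x ∈ S, p x = x) (g : Equiv.Perm ℕ)
    (h1 : ∀ x, Cn (fun x y => M.1 x y = true) {z | z ∈ S} a x →
      Cn (fun x y => M.1 x y = true) {z | z ∈ S} a (p x))
    (h2 : ∀ x, Cn (fun x y => M.1 x y = true) {z | z ∈ S} a x → g x = p x)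
    (h3 : ∀ x, ¬ Cn (fun x y => M.1 x y = true) {z | z ∈ S} a x → g x = x) : IsoH g M M := by
  classical
  set D : Set ℕ := {x | Cn (fun x y => M.1 x y = true) {z | z ∈ S} a x} with hD
  have hDS : ∀ x ∈ D, x ∉ S := fun x hx => Cn.notMem hx ha
  have hgS : ∀ x ∈ S, g x = x := fun x hx => h3 x fun h => hDS x h hx
  -- on `D ∪ S` the two maps agree
  have hag : ∀ x, x ∈ D ∨ x ∈ S → g x = p x := by
    rintro x (hx | hx)
    · exact h2 x hx
    · rw [hgS x hx, hS x hx]
  -- a neighbour of `D` is in `D ∪ S`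
  have hnb : ∀ u v, u ∈ D → M.1 u v = true → v ∈ D ∨ v ∈ S := by
    intro u v hu huv
    by_cases hv : v ∈ S
    · exact Or.inr hv
    · exact Or.inl (Cn.trans hu (Cn.single huv (hDS u hu) hv))
  have hgD : ∀ x ∈ D, g x ∈ D := fun x hx => by
    rw [h2 x hx]
    exact h1 x hx
  -- adjacency across the boundary
  have hcross : ∀ u v, u ∈ D → ¬ (v ∈ D ∨ v ∈ S) → M.1 u v = false := by
    intro u v hu hv
    by_contra hcon
    rw [Bool.not_eq_false] at hcon
    exact hv (hnb u v hu hcon)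
  refine ⟨fun u v => ?_, fun l => ?_⟩
  · by_cases hu : u ∈ D
    · by_cases hv : v ∈ D ∨ v ∈ S
      · rw [hag u (Or.inl hu), hag v hv]
        exact hp.1 u v
      · rw [hcross u v hu hv, h3 v fun h => hv (Or.inl h), hcross _ v (hgD u hu) hv]
    · by_cases hv : v ∈ D
      · by_cases hu' : u ∈ S
        · rw [hag u (Or.inr hu'), hag v (Or.inl hv)]
          exact hp.1 u v
        · have hu'' : ¬ (u ∈ D ∨ u ∈ S) := fun h => h.elim hu hu'
          rw [hV.1 u v, hcross v u hv hu'', h3 u hu, hV.1, hcross _ u (hgD v hv) hu'']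
      · rw [h3 u hu, h3 v hv]
  · by_cases hl : ∃ u ∈ l, u ∈ D
    · obtain ⟨u, hul, hu⟩ := hl
      by_cases hl' : ∀ x ∈ l, x ∈ D ∨ x ∈ S
      · rw [hp.2 l]
        exact congrArg M.2 (List.map_congr_left fun x hx => (hag x (hl' x hx)).symm)
      · push Not at hl'
        obtain ⟨w, hwl, hw1, hw2⟩ := hl'
        have hw : ¬ (w ∈ D ∨ w ∈ S) := fun h => h.elim hw1 hw2
        have e1 : M.2 l = c0 := by
          by_contra hcon
          have := hV.2.2 l hcon u hul w hwl (fun h => hw1 (h ▸ hu))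
          rw [hcross u w hu hw] at this
          exact Bool.false_ne_true this
        have e2 : M.2 (l.map g) = c0 := by
          by_contra hcon
          have hgw : g w = w := h3 w hw1
          have := hV.2.2 (l.map g) hcon (g u) (List.mem_map_of_mem hul) (g w)
            (List.mem_map_of_mem hwl) (fun h => by
              rw [hgw] at h
              exact hw1 (h ▸ hgD u hu))
          rw [hgw, hcross (g u) w (hgD u hu) hw] at this
          exact Bool.false_ne_true this
        rw [e1, e2]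
    · push Not at hl
      have : l.map g = l := by
        conv_rhs => rw [← List.map_id l]
        exact List.map_congr_left fun x hx => h3 x (hl x hx)
      rw [this]

/-- **The conclusion for one structure.** -/
theorem hsp_of_div (hRLB : RLB C) (hFLC : FLC C) (hLIFT : LIFT C) (hSWG : SWG C c0)
    (hITR : ITR C c0) (T : Set (Fl C)) (M : St C) (hV : Valid c0 M) (hBF : BigFin T M)
    (ν : List ℕ → ℕ) (φ : Y C) (hF : Flat T M ν φ) (hdiv : PDiv (AutY φ)) : HSP M := by
  obtain ⟨H, hH, hcl, ψ, hψ, hc⟩ := hdiv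
  obtain ⟨supp, hs1, hs2⟩ := exists_supp H hcl ψ hψ hc
  obtain ⟨Z, hZK, hZs⟩ := exists_sys hRLB hFLC hLIFT hSWG hITR T M hV hBF ν φ hF H hH ψ hψ hc
    supp ⟨hs1, hs2⟩
  have hsym : ∀ x y : ℕ, M.1 x y = true → M.1 y x = true := by
    intro x y hxy
    rwa [hV.1 y x]
  obtain ⟨W, w1, w2, w3⟩ := Sys.gt hsym Z
  refine ⟨W, w1, fun a ha b hb R hR haR hbR => cn_to_conn haR (w2 a ha b hb R hR haR hbR), ?_⟩
  intro R hR x hx hxR
  obtain ⟨F, S, C', a, hG, haC, hRS, hcomp⟩ := w3 R hR x hx hxR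
  have haS : a ∉ S := hG.notMem haC
  have hdiv := Sys.div_of_good hG haC {g : Equiv.Perm ℕ | IsoH g M M} (closed_isoH M)
    (fun p hp hfix g g1 g2 g3 => isoH_local hV (by
      rw [hZK] at hp
      exact hp.1) haS hfix g g1 g2 g3)
  refine SDiv.mono hdiv ?_
  rintro g ⟨hg1, hg2⟩
  refine ⟨hg1, fun z hz => hg2 z fun hz' => hz (cn_to_conn hxR (hcomp z hz'))⟩

end Pool.Agent.H41.HS
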