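import Mathlib

/-!
# Paths and connected sets (for the group theorem)
-/

set_option autoImplicit false

open Set

namespace Pool.Agent.H41.HS

/-- `x` and `y` are joined by a path all of whose vertices are outside `S` (or `x = y`) -/
def Cn (Adj : ℕ → ℕ → Prop) (S : Set ℕ) (x y : ℕ) : Prop :=
  Relation.ReflTransGen (fun u v => Adj u v ∧ u ∉ S ∧ v ∉ S) x y

/-- `C` is connected -/
def Con (Adj : ℕ → ℕ → Prop) (C : Set ℕ) : Prop :=
  ∀ x ∈ C, ∀ y ∈ C, Cn Adj Cᶜ x y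

variable {Adj : ℕ → ℕ → Prop}

lemma Cn.refl (S : Set ℕ) (x : ℕ) : Cn Adj S x x := Relation.ReflTransGen.refl

lemma Cn.trans {S : Set ℕ} {x y z : ℕ} (h : Cn Adj S x y) (h' : Cn Adj S y z) : Cn Adj S x z :=
  Relation.ReflTransGen.trans h h'

lemma Cn.symm (hs : ∀ x y, Adj x y → Adj y x) {S : Set ℕ} {x y : ℕ} (h : Cn Adj S x y) :
    Cn Adj S y x := by
  induction h with
  | refl => exact Cn.refl S x
  | tail _ h ih => exact Relation.ReflTransGen.head ⟨hs _ _ h.1, h.2.2, h.2.1⟩ ih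

lemma Cn.anti {S S' : Set ℕ} (hS : S ⊆ S') {x y : ℕ} (h : Cn Adj S' x y) : Cn Adj S x y := by
  induction h with
  | refl => exact Cn.refl _ _
  | tail _ h ih =>
    exact Relation.ReflTransGen.tail ih
      ⟨h.1, fun h' => h.2.1 (hS h'), fun h' => h.2.2 (hS h')⟩

lemma Cn.single {S : Set ℕ} {x y : ℕ} (h : Adj x y) (hx : x ∉ S) (hy : y ∉ S) : Cn Adj S x y :=
  Relation.ReflTransGen.single ⟨h, hx, hy⟩

lemma Cn.notMem {S : Set ℕ} {x y : ℕ} (h : Cn Adj S x y) (hx : x ∉ S) : y ∉ S := by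
  induction h with
  | refl => exact hx
  | tail _ h _ => exact h.2.2

/-- a map preserving adjacency and the complement of `S` preserves paths -/
lemma Cn.map {Adj' : ℕ → ℕ → Prop} {S S' : Set ℕ} {f : ℕ → ℕ}
    (hf : ∀ x y, Adj x y → x ∉ S → y ∉ S → Adj' (f x) (f y))
    (hS : ∀ x, x ∉ S → f x ∉ S') {x y : ℕ} (h : Cn Adj S x y) : Cn Adj' S' (f x) (f y) := by
  induction h with
  | refl => exact Cn.refl _ _
  | tail _ h ih => exact ih.trans (Cn.single (hf _ _ h.1 h.2.1 h.2.2) (hS _ h.2.1) (hS _ h.2.2))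

lemma Con.cn {C : Set ℕ} (hC : Con Adj C) {S : Set ℕ} (hS : Disjoint C S) {x y : ℕ} (hx : x ∈ C)
    (hy : y ∈ C) : Cn Adj S x y :=
  (hC x hx y hy).anti fun _ h h' => (Set.disjoint_left.mp hS h') h

lemma Con.singleton (x : ℕ) : Con Adj {x} := by
  rintro _ rfl _ rfl
  exact Cn.refl _ _

lemma Con.union {C C' : Set ℕ} (h : Con Adj C) (h' : Con Adj C') {z : ℕ} (hz : z ∈ C)
    (hz' : z ∈ C') : Con Adj (C ∪ C') := by
  have key1 : ∀ x ∈ C, ∀ y ∈ C, Cn Adj (C ∪ C')ᶜ x y := fun x hx y hy =>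
    (h x hx y hy).anti (Set.compl_subset_compl.mpr Set.subset_union_left)
  have key2 : ∀ x ∈ C', ∀ y ∈ C', Cn Adj (C ∪ C')ᶜ x y := fun x hx y hy =>
    (h' x hx y hy).anti (Set.compl_subset_compl.mpr Set.subset_union_right)
  rintro x (hx | hx) y (hy | hy)
  · exact key1 x hx y hy
  · exact (key1 x hx z hz).trans (key2 z hz' y hy)
  · exact (key2 x hx z hz').trans (key1 z hz y hy)
  · exact key2 x hx y hy

/-- adding a neighbour -/
lemma Con.insert (hs : ∀ x y, Adj x y → Adj y x) {C : Set ℕ} (h : Con Adj C) {x z : ℕ}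
    (hz : z ∈ C) (hxz : Adj x z) : Con Adj (Insert.insert x C) := by
  have hx : x ∈ Insert.insert x C := Set.mem_insert _ _
  have hz' : z ∈ Insert.insert x C := Set.mem_insert_of_mem _ hz
  have h1 : Cn Adj (Insert.insert x C)ᶜ x z := Cn.single hxz (fun h => h hx) (fun h => h hz')
  have h2 : ∀ y ∈ C, Cn Adj (Insert.insert x C)ᶜ z y := fun y hy =>
    (h z hz y hy).anti (Set.compl_subset_compl.mpr (Set.subset_insert _ _))
  have h3 : ∀ y ∈ Insert.insert x C, Cn Adj (Insert.insert x C)ᶜ x y := by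
    rintro y (rfl | hy)
    · exact Cn.refl _ _
    · exact h1.trans (h2 y hy)
  intro u hu v hv
  exact ((h3 u hu).symm hs).trans (h3 v hv)

/-- the last vertex violating `B` on a path, and the finite connected rest of the path -/
lemma exists_last (hs : ∀ x y, Adj x y → Adj y x) {S : Set ℕ} {B : ℕ → Prop} {a c : ℕ}
    (h : Cn Adj S a c) (ha : ¬ B a) (hc : B c) :
    ∃ y y' : ℕ, Cn Adj S a y ∧ ¬ B y ∧ Adj y y' ∧ ∃ P : Set ℕ, P.Finite ∧ Con Adj P ∧ y' ∈ P ∧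
      c ∈ P ∧ ∀ z ∈ P, B z ∧ Cn Adj S a z := by
  have key : (∃ P : Set ℕ, P.Finite ∧ Con Adj P ∧ a ∈ P ∧ c ∈ P ∧ ∀ z ∈ P, B z ∧ Cn Adj S a z) ∨
      ∃ y y' : ℕ, Cn Adj S a y ∧ ¬ B y ∧ Adj y y' ∧ ∃ P : Set ℕ, P.Finite ∧ Con Adj P ∧ y' ∈ P ∧
        c ∈ P ∧ ∀ z ∈ P, B z ∧ Cn Adj S a z := by
    clear ha
    induction h using Relation.ReflTransGen.head_induction_on with
    | refl => exact Or.inl ⟨{c}, Set.finite_singleton _, Con.singleton _, rfl, rfl,
        by rintro z rfl; exact ⟨hc, Cn.refl _ _⟩⟩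
    | head h1 _ ih =>
      rename_i x x' _
      have h1' : Cn Adj S x x' := Cn.single h1.1 h1.2.1 h1.2.2
      rcases ih with ⟨P, p1, p2, p3, p4, p5⟩ | ⟨y, y', e1, e2, e3, P, e4, e5, e6, e7, e8⟩
      · by_cases hb : B x
        · refine Or.inl ⟨Insert.insert x P, p1.insert x, p2.insert hs p3 h1.1, Set.mem_insert _ _,
            Set.mem_insert_of_mem _ p4, ?_⟩
          rintro z (rfl | hz)
          · exact ⟨hb, Cn.refl _ _⟩
          · exact ⟨(p5 z hz).1, h1'.trans (p5 z hz).2⟩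
        · exact Or.inr ⟨x, x', Cn.refl _ _, hb, h1.1, P, p1, p2, p3, p4,
            fun z hz => ⟨(p5 z hz).1, h1'.trans (p5 z hz).2⟩⟩
      · exact Or.inr ⟨y, y', h1'.trans e1, e2, e3, P, e4, e5, e6, e7,
          fun z hz => ⟨(e8 z hz).1, h1'.trans (e8 z hz).2⟩⟩
  rcases key with ⟨P, -, -, p3, -, p5⟩ | h
  · exact absurd (p5 a p3).1 ha
  · exact h

end Pool.Agent.H41.HS
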